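import Pool.Agent.H30.KT.Main

/-!
# `K₂(A) → lim K₂(A/𝔪^r) ⊕ K₂(Frac A)` is not injective for a complete one-dimensional ring

The definitions used in the statement are `St`, `phi`, `K2`, `K2.map` (in `Pool.Agent.H30.KT.St`)
and `FracP`, `Vanishes`, `VanishesMod`, `VanishesFrac`, `InKerDelta` (in `Pool.Agent.H30.KT.Frac`):

* `St A` is the Steinberg group of `A`, with generators `x i j a` for `i j : ℕ` (the generators with
  `i = j` are set to `1`) and the Steinberg relations;
* `phi A` is the homomorphism from `St A` to the automorphisms of the free module on `ℕ`, sending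
  `x i j a` to the elementary matrix `1 + a E_{ij}`, and `K2 A` is its kernel;
* `K2.map f` is the homomorphism induced by a ring homomorphism `f`;
* `FracP A` is the product of the localizations of `A` at its minimal prime ideals;
* `Vanishes f κ` says that `K2.map f κ` is the neutral element, `VanishesMod I κ` that `κ` vanishes
  in `K₂(A/I)`, `VanishesFrac κ` that it vanishes in `K₂(FracP A)`, and `InKerDelta A κ` that `κ`
  vanishes in `K₂(A/𝔪^r)` for every `r` and in `K₂(FracP A)`.

The ring is `A = R[ε]`, `ε² = 0`, with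
`R = ℚ⟦t⟧[x, y] / (f_x, f_y, f_t, x⁷, y⁷)`, `f = x⁶ + y⁶ + t x⁴ y² + g x² y⁴`, where `g ∈ ℚ⟦t⟧` and
`D : Frac ℚ⟦t⟧ → Frac ℚ⟦t⟧` is a derivation with `D t = 0` and `D g ≠ 0`.
-/

namespace Pool.Agent.Results.MP_51ebc3_al.DeltaTwoNotInjective

open Pool.Agent.H30.KT IsLocalRing

/-- There are a one-dimensional complete Noetherian local ring `A`, containing `ℚ`, and a nonzero
element of `K₂(A)` (written multiplicatively) whose image vanishes in `K₂(A/𝔪^r)` for every `r` and
in `K₂(Frac A)`. -/
theorem result : ∃ (A : Type) (_ : CommRing A) (_ : Algebra ℚ A) (_ : IsLocalRing A),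
    IsNoetherianRing A ∧ IsAdicComplete (maximalIdeal A) A ∧ ringKrullDim A = 1 ∧
    ∃ κ : K2 A, κ ≠ 1 ∧ InKerDelta A κ :=
  main

end Pool.Agent.Results.MP_51ebc3_al.DeltaTwoNotInjective
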